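import Pool.Agent.FNS.Final

/-!
# Flag no-square triangulations of closed four-manifolds: bounds for the number of vertices

Partial answer to Q1, dimension four.  Let `Δ` be the clique complex of a finite graph `G`, that is, a
flag complex.  Suppose that `Δ` is pure of dimension four, that every tetrahedron lies in exactly two
four-simplices, that every edge link has Euler characteristic `2`, and that `Δ` has no induced square.
All this holds for a flag no-square triangulation of a closed four-manifold.  Then the number `f₀` of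
vertices satisfies `541 ≤ f₀ ≤ χ(Δ)`.
-/

set_option autoImplicit false

namespace Pool.Agent.Results.MP_99a69d_al.VertexBound

theorem result {V : Type} [Fintype V] [DecidableEq V] [Nonempty V]
    (G : SimpleGraph V) [DecidableRel G.Adj]
    (hdim : G.CliqueFree 6)
    (hpure : ∀ s : Finset V, G.IsClique (s : Set V) → ∃ t, G.IsNClique 5 t ∧ s ⊆ t)
    (hsquare : ∀ a b c d : V, a ≠ c → b ≠ d → G.Adj a b → G.Adj b c → G.Adj c d → G.Adj d a →
      G.Adj a c ∨ G.Adj b d)
    (htwo : ∀ s : Finset V, G.IsNClique 4 s →
      ((G.cliqueFinset 5).filter (fun t => s ⊆ t)).card = 2)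
    (hedge : ∀ s : Finset V, G.IsNClique 2 s →
      (((G.cliqueFinset 3).filter (fun t => s ⊆ t)).card : ℤ)
        - ((G.cliqueFinset 4).filter (fun t => s ⊆ t)).card
        + ((G.cliqueFinset 5).filter (fun t => s ⊆ t)).card = 2) :
    541 ≤ Fintype.card V ∧
    (Fintype.card V : ℤ) ≤
      ∑ k ∈ Finset.range 5, (-1 : ℤ) ^ k * ((G.cliqueFinset (k + 1)).card : ℤ) := by
  have hedge' : ∀ s, G.IsNClique 2 s → Pool.Agent.FNS.above G 3 s + Pool.Agent.FNS.above G 5 s
      = Pool.Agent.FNS.above G 4 s + 2 := by
    intro s hs
    have h := hedge s hs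
    unfold Pool.Agent.FNS.above
    omega
  refine ⟨?_, Pool.Agent.FNS.card_le_euler hdim hsquare htwo hpure hedge'⟩
  obtain ⟨v⟩ := (inferInstance : Nonempty V)
  have h1 := Pool.Agent.FNS.degree_ge hdim hsquare htwo hpure hedge' v
  have h2 := Pool.Agent.FNS.vertices_ge hdim hsquare htwo hpure hedge' v
  omega

end Pool.Agent.Results.MP_99a69d_al.VertexBound
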